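import Mathlib

/-!
# Free topological vector spaces of closed subspaces of metrizable spaces

If `X` is metrizable and `Y ⊆ X` is closed, then the free topological vector space `V(Y)` is
topologically isomorphic to a vector subspace of `V(X)`.
-/

namespace Pool.Agent.Results.MP_aab88c_gt.ClosedSubspace

open Set Topology Filter MeasureTheory TopologicalSpace
open scoped Pointwise ENNReal

universe u

/-- `V` together with `i : X → V` is the free topological vector space on the space `X`: `V` is a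
Hausdorff topological vector space, `i` is continuous, and for every continuous map `f` of `X` to a
Hausdorff topological vector space `E` there is a unique continuous linear map `F : V → E` with
`F ∘ i = f`. -/
structure IsFreeTVS (X : Type u) [TopologicalSpace X] (V : Type u) [AddCommGroup V] [Module ℝ V]
    [TopologicalSpace V] (i : X → V) : Prop where
  isTopologicalAddGroup : IsTopologicalAddGroup V
  continuousSMul : ContinuousSMul ℝ V
  t2Space : T2Space V
  continuous : Continuous i
  universal : ∀ (E : Type u) [AddCommGroup E] [Module ℝ E] [TopologicalSpace E]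
    [IsTopologicalAddGroup E] [ContinuousSMul ℝ E] [T2Space E] (f : X → E), Continuous f →
    ∃! F : V →L[ℝ] E, ∀ x, F (i x) = f x

/-! ## Functions of finite range, with the topology of convergence in measure on `[0, 1)` -/

section HM

variable (E : Type u) [AddCommGroup E] [Module ℝ E]

/-- Functions of finite range. -/
def FR : Submodule ℝ (ℝ → E) where
  carrier := {g | (range g).Finite}
  add_mem' := by
    intro f g hf hg
    refine (hf.add hg).subset ?_
    rintro _ ⟨t, rfl⟩
    exact Set.add_mem_add ⟨t, rfl⟩ ⟨t, rfl⟩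
  zero_mem' := by
    refine (Set.finite_singleton (0 : E)).subset ?_
    rintro _ ⟨t, rfl⟩
    rfl
  smul_mem' := by
    intro r f hf
    refine (hf.image (fun e => r • e)).subset ?_
    rintro _ ⟨t, rfl⟩
    exact ⟨f t, ⟨t, rfl⟩, rfl⟩

/-- The space of functions of finite range, as a type of its own. -/
def HMS : Type u := FR E

instance : AddCommGroup (HMS E) := inferInstanceAs (AddCommGroup (FR E))

instance : Module ℝ (HMS E) := inferInstanceAs (Module ℝ (FR E))

variable {E}

/-- The value of an element of `HMS E` at `t`. -/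
def HMS.val (g : HMS E) (t : ℝ) : E := Subtype.val (p := fun g => g ∈ FR E) g t

theorem HMS.finite (g : HMS E) : (range g.val).Finite := Subtype.prop (p := fun g => g ∈ FR E) g

@[simp] theorem HMS.val_add (g h : HMS E) (t : ℝ) : (g + h).val t = g.val t + h.val t := rfl

@[simp] theorem HMS.val_neg (g : HMS E) (t : ℝ) : (-g).val t = -g.val t := rfl

@[simp] theorem HMS.val_sub (g h : HMS E) (t : ℝ) : (g - h).val t = g.val t - h.val t := rfl

@[simp] theorem HMS.val_zero (t : ℝ) : (0 : HMS E).val t = 0 := rfl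

@[simp] theorem HMS.val_smul (r : ℝ) (g : HMS E) (t : ℝ) : (r • g).val t = r • g.val t := rfl

/-- Basic neighbourhoods of zero. -/
def NN (U : Set E) (ε : ℝ≥0∞) : Set (HMS E) :=
  {g | volume {t | t ∈ Ico (0 : ℝ) 1 ∧ g.val t ∉ U} < ε}

theorem nn_mono {U U' : Set E} (hU : U ⊆ U') {ε ε' : ℝ≥0∞} (hε : ε ≤ ε') : NN U ε ⊆ NN U' ε' := by
  intro g hg
  refine lt_of_le_of_lt (measure_mono ?_) (lt_of_lt_of_le hg hε)
  exact fun t ht => ⟨ht.1, fun h => ht.2 (hU h)⟩

theorem nn_of_all {U : Set E} {ε : ℝ≥0∞} (hε : 0 < ε) {g : HMS E}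
    (h : ∀ t ∈ Ico (0 : ℝ) 1, g.val t ∈ U) : g ∈ NN U ε := by
  have : {t | t ∈ Ico (0 : ℝ) 1 ∧ g.val t ∉ U} = ∅ := by
    ext t
    simp only [mem_ofPred_eq, mem_empty_iff_false, iff_false, not_and, not_not]
    exact h t
  change volume _ < ε
  rw [this, measure_empty]
  exact hε

variable [TopologicalSpace E] [IsTopologicalAddGroup E] [ContinuousSMul ℝ E]

variable (E) in
/-- The neighbourhood basis at zero. -/
def basis : ModuleFilterBasis ℝ (HMS E) where
  toAddGroupFilterBasis := addGroupFilterBasisOfComm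
    {S | ∃ U ∈ 𝓝 (0 : E), ∃ ε : ℝ≥0∞, 0 < ε ∧ S = NN U ε}
    ⟨_, univ, univ_mem, 1, one_pos, rfl⟩
    (by
      rintro _ _ ⟨U, hU, ε, hε, rfl⟩ ⟨U', hU', ε', hε', rfl⟩
      refine ⟨_, ⟨U ∩ U', inter_mem hU hU', min ε ε', lt_min hε hε', rfl⟩, ?_⟩
      exact subset_inter (nn_mono inter_subset_left (min_le_left _ _))
        (nn_mono inter_subset_right (min_le_right _ _)))
    (by
      rintro _ ⟨U, hU, ε, hε, rfl⟩
      exact nn_of_all hε fun t _ => mem_of_mem_nhds hU)
    (by
      rintro _ ⟨U, hU, ε, hε, rfl⟩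
      obtain ⟨V, hV, hVU⟩ := exists_nhds_zero_half hU
      refine ⟨_, ⟨V, hV, ε / 2, ENNReal.half_pos hε.ne', rfl⟩, ?_⟩
      rintro _ ⟨g, hg, h, hh, rfl⟩
      have h1 : {t | t ∈ Ico (0 : ℝ) 1 ∧ (g + h).val t ∉ U} ⊆
          {t | t ∈ Ico (0 : ℝ) 1 ∧ g.val t ∉ V} ∪ {t | t ∈ Ico (0 : ℝ) 1 ∧ h.val t ∉ V} := by
        intro t ht
        by_contra hcon
        simp only [mem_union, mem_ofPred_eq, not_or, not_and, not_not] at hcon
        exact ht.2 (hVU _ (hcon.1 ht.1) _ (hcon.2 ht.1))
      change volume _ < ε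
      calc _ ≤ _ := (measure_mono h1).trans (measure_union_le _ _)
        _ < ε / 2 + ε / 2 := ENNReal.add_lt_add hg hh
        _ = ε := ENNReal.add_halves ε)
    (by
      rintro _ ⟨U, hU, ε, hε, rfl⟩
      refine ⟨_, ⟨-U, neg_mem_nhds_zero E hU, ε, hε, rfl⟩, ?_⟩
      intro g hg
      refine lt_of_le_of_lt (measure_mono ?_) hg
      exact fun t ht => ⟨ht.1, fun h => ht.2 (by simpa using h)⟩)
  smul' := by
    rintro _ ⟨U, hU, ε, hε, rfl⟩
    have h1 : Tendsto (fun p : ℝ × E => p.1 • p.2) (𝓝 ((0 : ℝ), (0 : E))) (𝓝 0) := by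
      have := (continuous_smul (M := ℝ) (X := E)).tendsto ((0 : ℝ), (0 : E))
      simpa using this
    have h2 := h1 hU
    rw [nhds_prod_eq, mem_map, mem_prod_iff] at h2
    obtain ⟨V, hV, W, hW, hVW⟩ := h2
    refine ⟨V, hV, _, ⟨W, hW, ε, hε, rfl⟩, ?_⟩
    rintro _ ⟨r, hr, g, hg, rfl⟩
    refine lt_of_le_of_lt (measure_mono ?_) hg
    exact fun t ht => ⟨ht.1, fun h => ht.2 (hVW (mk_mem_prod hr h))⟩
  smul_left' := by
    rintro r _ ⟨U, hU, ε, hε, rfl⟩
    have h1 : (fun e : E => r • e) ⁻¹' U ∈ 𝓝 (0 : E) := by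
      have := (continuous_const_smul r).tendsto (0 : E)
      rw [smul_zero] at this
      exact this hU
    refine ⟨_, ⟨_, h1, ε, hε, rfl⟩, ?_⟩
    intro g hg
    refine lt_of_le_of_lt (measure_mono ?_) hg
    exact fun t ht => ⟨ht.1, fun h => ht.2 h⟩
  smul_right' := by
    rintro g _ ⟨U, hU, ε, hε, rfl⟩
    have h1 : ∀ᶠ r in 𝓝 (0 : ℝ), ∀ e ∈ range g.val, r • e ∈ U := by
      rw [eventually_all_finite g.finite]
      intro e _
      have h2 : Continuous (fun r : ℝ => r • e) := by fun_prop
      have h3 := h2.tendsto 0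
      rw [zero_smul] at h3
      exact h3 hU
    filter_upwards [h1] with r hr
    exact nn_of_all hε fun t _ => hr _ ⟨t, rfl⟩

instance : TopologicalSpace (HMS E) := (basis E).topology

instance : IsTopologicalAddGroup (HMS E) :=
  (basis E).toAddGroupFilterBasis.isTopologicalAddGroup

instance : ContinuousSMul ℝ (HMS E) := (basis E).continuousSMul

theorem tendsto_iff {α : Type*} {l : Filter α} {f : α → HMS E} {a : HMS E} :
    Tendsto f l (𝓝 a) ↔ ∀ U ∈ 𝓝 (0 : E), ∀ ε : ℝ≥0∞, 0 < ε → ∀ᶠ x in l, f x - a ∈ NN U ε := by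
  rw [← tendsto_sub_nhds_zero_iff,
    (basis E).toAddGroupFilterBasis.nhds_zero_hasBasis.tendsto_right_iff]
  constructor
  · intro h U hU ε hε
    exact h _ ⟨U, hU, ε, hε, rfl⟩
  · rintro h _ ⟨U, hU, ε, hε, rfl⟩
    exact h U hU ε hε

/-- Constant functions. -/
def constL : E →ₗ[ℝ] HMS E where
  toFun e := (⟨fun _ => e, (Set.finite_singleton e).subset (by rintro _ ⟨t, rfl⟩; rfl)⟩ : FR E)
  map_add' _ _ := rfl
  map_smul' _ _ := rfl

omit [TopologicalSpace E] [IsTopologicalAddGroup E] [ContinuousSMul ℝ E] in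
@[simp] theorem constL_val (e : E) (t : ℝ) : (constL e).val t = e := rfl

omit [TopologicalSpace E] [IsTopologicalAddGroup E] [ContinuousSMul ℝ E] in
theorem constL_mem {e : E} {U : Set E} {ε : ℝ≥0∞} (hε : ε ≤ 1) (h : constL e ∈ NN U ε) :
    e ∈ U := by
  by_contra hcon
  have h1 : {t | t ∈ Ico (0 : ℝ) 1 ∧ (constL e).val t ∉ U} = Ico (0 : ℝ) 1 := by
    ext t
    simp only [mem_ofPred_eq, constL_val, and_iff_left_iff_imp]
    exact fun _ => hcon
  have h2 : volume {t | t ∈ Ico (0 : ℝ) 1 ∧ (constL e).val t ∉ U} < ε := h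
  rw [h1, Real.volume_Ico] at h2
  simp only [sub_zero, ENNReal.ofReal_one] at h2
  exact absurd h2 (not_lt.mpr hε)

theorem isInducing_constL : IsInducing (constL : E →ₗ[ℝ] HMS E) := by
  rw [IsTopologicalAddGroup.isInducing_iff_nhds_zero]
  apply le_antisymm
  · rw [← tendsto_iff_comap, tendsto_iff]
    intro U hU ε hε
    filter_upwards [hU] with e he
    exact nn_of_all hε fun t _ => by simpa using he
  · intro U hU
    rw [mem_comap]
    refine ⟨NN U 1, ?_, fun e he => constL_mem le_rfl he⟩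
    exact (basis E).toAddGroupFilterBasis.nhds_zero_hasBasis.mem_of_mem
      ⟨U, hU, 1, one_pos, rfl⟩

end HM

/-! ## Partitions of unity and step functions -/

section Step

variable {Z ι : Type*} [TopologicalSpace Z] [LinearOrder ι] [WellFoundedLT ι]
  (ρ : PartitionOfUnity ι Z)

/-- Cumulative sums. -/
noncomputable def cum (i : ι) (z : Z) : ℝ := ∑ᶠ j, if j ≤ i then ρ j z else 0

omit [LinearOrder ι] [WellFoundedLT ι] in
theorem finite_supp (z : Z) : {j | ρ j z ≠ 0}.Finite := by
  have := ρ.locallyFinite.point_finite z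
  exact this

omit [WellFoundedLT ι] in
theorem continuous_cum (i : ι) : Continuous (cum ρ i) := by
  unfold cum
  refine continuous_finsum (fun j => ?_) ?_
  · split_ifs
    · exact (ρ j).continuous
    · exact continuous_const
  · refine ρ.locallyFinite.subset fun j => ?_
    intro z hz
    simp only [Function.mem_support, ne_eq, ite_eq_right_iff, not_forall] at hz ⊢
    exact hz.2

omit [WellFoundedLT ι] in
theorem exists_lt_cum (z : Z) {t : ℝ} (ht : t < 1) : ∃ i, t < cum ρ i z := by
  have hsum : ∑ᶠ j, ρ j z = 1 := ρ.sum_eq_one (mem_univ z)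
  have hfin := finite_supp ρ z
  have hne : hfin.toFinset.Nonempty := by
    by_contra hcon
    rw [Finset.not_nonempty_iff_eq_empty, Finite.toFinset_eq_empty] at hcon
    have h0 : ∀ j, ρ j z = 0 := by
      intro j
      by_contra hj
      have : j ∈ {j | ρ j z ≠ 0} := hj
      rw [hcon] at this
      exact this
    have : ∑ᶠ j, ρ j z = 0 := by simp only [h0, finsum_zero]
    linarith
  refine ⟨hfin.toFinset.max' hne, ?_⟩
  have : cum ρ (hfin.toFinset.max' hne) z = 1 := by
    rw [← hsum]
    unfold cum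
    congr 1
    funext j
    split_ifs with h
    · rfl
    · by_contra hj
      exact h (Finset.le_max' _ _ (by simpa using Ne.symm hj))
  rw [this]
  exact ht

/-- The index selected by `t`. -/
noncomputable def idx [Nonempty ι] (z : Z) (t : ℝ) : ι :=
  Classical.epsilon fun i => t < cum ρ i z ∧ ∀ j < i, cum ρ j z ≤ t

theorem idx_spec [Nonempty ι] (z : Z) {t : ℝ} (ht : t < 1) :
    t < cum ρ (idx ρ z t) z ∧ ∀ j < idx ρ z t, cum ρ j z ≤ t := by
  have hex : ∃ i, t < cum ρ i z ∧ ∀ j < i, cum ρ j z ≤ t := by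
    have h1 := exists_lt_cum ρ z ht
    refine ⟨WellFounded.min wellFounded_lt {i | t < cum ρ i z} h1,
      WellFounded.min_mem wellFounded_lt _ h1, fun j hj => ?_⟩
    by_contra hcon
    push Not at hcon
    exact WellFounded.not_lt_min wellFounded_lt {i | t < cum ρ i z} hcon hj
  exact Classical.epsilon_spec hex

theorem idx_ne [Nonempty ι] (z : Z) {t : ℝ} (ht : t ∈ Ico (0 : ℝ) 1) : ρ (idx ρ z t) z ≠ 0 := by
  intro h0
  obtain ⟨h1, h2⟩ := idx_spec ρ z ht.2
  set i := idx ρ z t
  have hfin : {j | j < i ∧ ρ j z ≠ 0}.Finite := (finite_supp ρ z).subset fun j hj => hj.2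
  by_cases hne : hfin.toFinset.Nonempty
  · set m := hfin.toFinset.max' hne with hm
    have hmem : m ∈ hfin.toFinset := Finset.max'_mem _ hne
    have hmi : m < i := by
      have := (hfin.mem_toFinset.mp hmem).1
      exact this
    have hcum : cum ρ m z = cum ρ i z := by
      unfold cum
      congr 1
      funext j
      by_cases hjm : j ≤ m
      · rw [if_pos hjm, if_pos (hjm.trans hmi.le)]
      · rw [if_neg hjm]
        split_ifs with hji
        · rcases hji.eq_or_lt with rfl | hji
          · exact h0.symm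
          · by_contra hj
            exact hjm (Finset.le_max' _ _ (hfin.mem_toFinset.mpr ⟨hji, Ne.symm hj⟩))
        · rfl
    have := h2 m hmi
    rw [hcum] at this
    linarith
  · have hcum : cum ρ i z = 0 := by
      unfold cum
      have : (fun j => if j ≤ i then ρ j z else 0) = fun _ => 0 := by
        funext j
        split_ifs with hji
        · rcases hji.eq_or_lt with rfl | hji
          · exact h0
          · by_contra hj
            exact hne ⟨j, hfin.mem_toFinset.mpr ⟨hji, hj⟩⟩
        · rfl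
      rw [this, finsum_zero]
    rw [hcum] at h1
    linarith [ht.1]

theorem eventually_idx [Nonempty ι] (z₀ : Z) {ε : ℝ≥0∞} (hε : 0 < ε) :
    ∀ᶠ z in 𝓝 z₀, volume {t | t ∈ Ico (0 : ℝ) 1 ∧ idx ρ z t ≠ idx ρ z₀ t} < ε := by
  obtain ⟨W, hW, hfin⟩ := ρ.locallyFinite z₀
  have hlim : Tendsto (fun z => ∑ i ∈ hfin.toFinset, ENNReal.ofReal |cum ρ i z - cum ρ i z₀|)
      (𝓝 z₀) (𝓝 0) := by
    have h1 : Tendsto (fun z => ∑ i ∈ hfin.toFinset, ENNReal.ofReal |cum ρ i z - cum ρ i z₀|)
        (𝓝 z₀) (𝓝 (∑ i ∈ hfin.toFinset, ENNReal.ofReal |cum ρ i z₀ - cum ρ i z₀|)) := by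
      refine tendsto_finsetSum _ fun i _ => ?_
      refine ENNReal.tendsto_ofReal ?_
      exact (((continuous_cum ρ i).tendsto z₀).sub_const _).abs
    simpa using h1
  filter_upwards [hlim.eventually_lt_const hε, hW] with z hz hzW
  refine lt_of_le_of_lt ?_ hz
  have hsub : {t | t ∈ Ico (0 : ℝ) 1 ∧ idx ρ z t ≠ idx ρ z₀ t} ⊆
      ⋃ i ∈ hfin.toFinset, uIcc (cum ρ i z₀) (cum ρ i z) := by
    rintro t ⟨ht, hne⟩
    have hmem : ∀ w ∈ W, idx ρ w t ∈ hfin.toFinset := by
      intro w hw
      rw [hfin.mem_toFinset]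
      exact ⟨w, idx_ne ρ w ht, hw⟩
    obtain ⟨a1, a2⟩ := idx_spec ρ z ht.2
    obtain ⟨b1, b2⟩ := idx_spec ρ z₀ ht.2
    simp only [mem_iUnion]
    rcases lt_or_gt_of_ne hne with h | h
    · refine ⟨idx ρ z t, hmem z hzW, ?_⟩
      have := b2 _ h
      exact mem_uIcc.mpr (Or.inl ⟨this, a1.le⟩)
    · refine ⟨idx ρ z₀ t, hmem z₀ (mem_of_mem_nhds hW), ?_⟩
      have := a2 _ h
      exact mem_uIcc.mpr (Or.inr ⟨this, b1.le⟩)
  refine (measure_mono hsub).trans ((measure_biUnion_finset_le _ _).trans ?_)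
  refine Finset.sum_le_sum fun i _ => ?_
  rw [Real.volume_interval]

end Step

/-! ## The extension theorem -/

/-- A continuous map of a closed subset of a metric space to a topological vector space `E`
extends to a continuous map of the whole space to `HMS E`. -/
theorem exists_extension {X : Type u} [MetricSpace X] {Y : Set X} (hY : IsClosed Y)
    (hYne : Y.Nonempty) {E : Type u} [AddCommGroup E] [Module ℝ E] [TopologicalSpace E]
    [IsTopologicalAddGroup E] [ContinuousSMul ℝ E] (f : Y → E) (hf : Continuous f) :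
    ∃ Φ : X → HMS E, Continuous Φ ∧ ∀ y : Y, Φ y = constL (f y) := by
  classical
  by_cases hall : Y = univ
  · refine ⟨fun x => constL (f ⟨x, hall ▸ mem_univ x⟩), ?_, fun y => rfl⟩
    exact isInducing_constL.continuous.comp (hf.comp (continuous_id.subtype_mk _))
  have hZne : Nonempty {x : X // x ∉ Y} := by
    by_contra hcon
    rw [not_nonempty_iff] at hcon
    apply hall
    ext x
    simp only [mem_univ, iff_true]
    by_contra hx
    exact hcon.false ⟨x, hx⟩
  obtain ⟨_, _⟩ := exists_wellFoundedLT {x : X // x ∉ Y}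
  have hpos : ∀ z : {x : X // x ∉ Y}, 0 < Metric.infDist (z : X) Y := fun z =>
    (hY.notMem_iff_infDist_pos hYne).mp z.2
  -- nearby points of Y
  have hnear : ∀ z : {x : X // x ∉ Y}, ∃ y : Y, dist (z : X) y < 2 * Metric.infDist (z : X) Y := by
    intro z
    obtain ⟨y, hy, hy2⟩ := (Metric.infDist_lt_iff hYne).mp
      (show Metric.infDist (z : X) Y < 2 * Metric.infDist (z : X) Y by linarith [hpos z])
    exact ⟨⟨y, hy⟩, hy2⟩
  choose yy hyy using hnear
  obtain ⟨ρ, hρ⟩ := PartitionOfUnity.exists_isSubordinate (X := {x : X // x ∉ Y}) isClosed_univ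
    (fun i : {x : X // x ∉ Y} => {z : {x : X // x ∉ Y} |
      dist (z : X) i < Metric.infDist (i : X) Y / 4})
    (fun i => isOpen_lt (by fun_prop) continuous_const)
    (fun z _ => mem_iUnion.mpr ⟨z, by
      simp only [mem_ofPred_eq, dist_self]
      linarith [hpos z]⟩)
  have hρd : ∀ i z, ρ i z ≠ 0 → dist (z : X) i < Metric.infDist (i : X) Y / 4 := by
    intro i z hz
    exact hρ i (subset_tsupport _ hz)
  set step : {x : X // x ∉ Y} → ℝ → E := fun z t =>
    if t ∈ Ico (0 : ℝ) 1 then f (yy (idx ρ z t)) else 0 with hstep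
  have hfin : ∀ z, (range (step z)).Finite := by
    intro z
    refine (((finite_supp ρ z).image fun i => f (yy i)).insert 0).subset ?_
    rintro _ ⟨t, rfl⟩
    by_cases ht : t ∈ Ico (0 : ℝ) 1
    · right
      refine ⟨idx ρ z t, idx_ne ρ z ht, ?_⟩
      simp only [hstep, if_pos ht]
    · left
      simp only [hstep, if_neg ht]
  set Φ : X → HMS E := fun x => if h : x ∈ Y then constL (f ⟨x, h⟩) else
    (⟨step ⟨x, h⟩, hfin ⟨x, h⟩⟩ : FR E) with hΦ
  have hΦY : ∀ (x : X) (h : x ∈ Y), Φ x = constL (f ⟨x, h⟩) := by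
    intro x h
    exact dif_pos h
  have hΦZ : ∀ (x : X) (h : x ∉ Y) (t : ℝ), t ∈ Ico (0 : ℝ) 1 →
      (Φ x).val t = f (yy (idx ρ ⟨x, h⟩ t)) := by
    intro x h t ht
    have h1 : Φ x = (⟨step ⟨x, h⟩, hfin ⟨x, h⟩⟩ : FR E) := dif_neg h
    rw [h1]
    change step ⟨x, h⟩ t = _
    simp only [hstep, if_pos ht]
  refine ⟨Φ, ?_, fun y => hΦY y y.2⟩
  rw [continuous_iff_continuousAt]
  intro x₀
  by_cases hx₀ : x₀ ∈ Y
  · -- points of Y
    rw [ContinuousAt, tendsto_iff]
    intro U hU ε hε
    have hfc : Tendsto (fun y : Y => f y - f ⟨x₀, hx₀⟩) (𝓝 ⟨x₀, hx₀⟩) (𝓝 0) :=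
      tendsto_sub_nhds_zero_iff.mpr (hf.tendsto _)
    have h1 := hfc hU
    rw [mem_map, nhds_subtype_eq_comap, mem_comap] at h1
    obtain ⟨t, ht, htU⟩ := h1
    obtain ⟨δ, hδ, hδt⟩ := Metric.mem_nhds_iff.mp ht
    have hball : ∀ y : Y, dist (y : X) x₀ < δ → f y - f ⟨x₀, hx₀⟩ ∈ U := by
      intro y hy
      exact htU (hδt hy)
    filter_upwards [Metric.ball_mem_nhds x₀ (show 0 < δ / 4 by linarith)] with x hx
    rw [Metric.mem_ball] at hx
    rw [hΦY x₀ hx₀]
    refine nn_of_all hε fun t ht => ?_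
    rw [HMS.val_sub, constL_val]
    by_cases hxY : x ∈ Y
    · rw [hΦY x hxY, constL_val]
      exact hball ⟨x, hxY⟩ (by simp only; linarith)
    · rw [hΦZ x hxY t ht]
      set i := idx ρ ⟨x, hxY⟩ t
      have hi : dist x (i : X) < Metric.infDist (i : X) Y / 4 := hρd i ⟨x, hxY⟩ (idx_ne ρ _ ht)
      have h2 : Metric.infDist (i : X) Y ≤ dist (i : X) x₀ := Metric.infDist_le_dist_of_mem hx₀
      have h3 : dist (i : X) x₀ ≤ dist (i : X) x + dist x x₀ := dist_triangle _ _ _
      have h4 := hyy i
      have h5 : dist (yy i : X) x₀ ≤ dist (yy i : X) i + dist (i : X) x₀ := dist_triangle _ _ _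
      rw [dist_comm (yy i : X) i] at h5
      rw [dist_comm (i : X) x] at h3
      apply hball
      linarith
  · -- points off Y
    have hemb : IsOpenEmbedding (Subtype.val : {x : X // x ∉ Y} → X) :=
      hY.isOpen_compl.isOpenEmbedding_subtypeVal
    have h0 : x₀ = ((⟨x₀, hx₀⟩ : {x : X // x ∉ Y}) : X) := rfl
    rw [h0, ← hemb.continuousAt_iff, ContinuousAt, tendsto_iff]
    intro U hU ε hε
    filter_upwards [eventually_idx ρ ⟨x₀, hx₀⟩ hε] with z hz
    refine lt_of_le_of_lt (measure_mono ?_) hz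
    rintro t ⟨ht, htU⟩
    refine ⟨ht, fun heq => htU ?_⟩
    simp only [Function.comp_apply]
    rw [HMS.val_sub, hΦZ z z.2 t ht, hΦZ x₀ hx₀ t ht, heq, sub_self]
    exact mem_of_mem_nhds hU

/-! ## Existence (not needed for the main result) -/

/-- Every Tychonoff space has a free topological vector space. -/
theorem exists_free (X : Type u) [TopologicalSpace X] [T35Space X] :
    ∃ (V : Type u) (_ : AddCommGroup V) (_ : Module ℝ V) (_ : TopologicalSpace V) (i : X → V),
      IsFreeTVS X V i := by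
  classical
  let S : Set (TopologicalSpace (X →₀ ℝ)) := {t | @IsTopologicalAddGroup _ t _ ∧
    @ContinuousSMul ℝ _ _ _ t ∧ @Continuous _ _ _ t (fun x : X => Finsupp.single x (1 : ℝ))}
  let τ : TopologicalSpace (X →₀ ℝ) := sInf S
  have hadd : IsTopologicalAddGroup (X →₀ ℝ) := topologicalAddGroup_sInf fun t ht => ht.1
  have hsmul : ContinuousSMul ℝ (X →₀ ℝ) := continuousSMul_sInf fun t ht => ht.2.1
  have hcont : Continuous (fun x : X => Finsupp.single x (1 : ℝ)) :=
    continuous_sInf_rng.mpr fun t ht => ht.2.2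
  -- linear extensions
  have hext : ∀ (E : Type u) [AddCommGroup E] [Module ℝ E] [tE : TopologicalSpace E]
      [IsTopologicalAddGroup E] [ContinuousSMul ℝ E] (f : X → E), Continuous f →
      Continuous (Finsupp.linearCombination ℝ f : (X →₀ ℝ) →ₗ[ℝ] E) := by
    intro E _ _ tE _ _ f hf
    rw [continuous_iff_le_induced]
    refine sInf_le ⟨topologicalAddGroup_induced (Finsupp.linearCombination ℝ f),
      continuousSMul_induced (Finsupp.linearCombination ℝ f), ?_⟩
    rw [continuous_induced_rng]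
    refine hf.congr fun x => ?_
    simp
  have ht2 : T2Space (X →₀ ℝ) := by
    refine IsTopologicalAddGroup.t2Space_of_zero_sep fun v hv => ?_
    obtain ⟨x₀, hx₀⟩ := Finsupp.ne_iff.mp hv
    rw [Finsupp.zero_apply] at hx₀
    obtain ⟨g, hg, hg0, hg1⟩ := CompletelyRegularSpace.completely_regular x₀
      ((v.support.erase x₀ : Finset X) : Set X) (Finset.finite_toSet _).isClosed (by simp)
    set f : X → ULift.{u} ℝ := fun x => ⟨1 - (g x : ℝ)⟩ with hf
    have hfc : Continuous f := by
      refine continuous_uliftUp.comp ?_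
      exact continuous_const.sub (continuous_subtype_val.comp hg)
    have hF := hext (ULift.{u} ℝ) f hfc
    have hv0 : (Finsupp.linearCombination ℝ f v).down = v x₀ := by
      rw [Finsupp.linearCombination_apply, Finsupp.sum]
      have h1 : ∀ x ∈ v.support, x ≠ x₀ → v x • f x = 0 := by
        intro x hx hne
        have h2 : g x = 1 := hg1 (Finset.mem_coe.mpr (Finset.mem_erase.mpr ⟨hne, hx⟩))
        apply ULift.down_injective
        simp [hf, h2]
      rw [Finset.sum_eq_single x₀ h1 (fun h => by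
        rw [Finsupp.notMem_support_iff.mp h, zero_smul])]
      simp [hf, hg0]
    refine ⟨(fun w => (Finsupp.linearCombination ℝ f w).down) ⁻¹' {v x₀}ᶜ, ?_, ?_⟩
    · refine (continuous_uliftDown.comp hF).continuousAt.preimage_mem_nhds ?_
      refine isOpen_compl_singleton.mem_nhds ?_
      simp only [map_zero, Function.comp_apply, ULift.zero_down, mem_compl_iff, mem_singleton_iff]
      exact Ne.symm hx₀
    · simp only [mem_preimage, mem_compl_iff, mem_singleton_iff, not_not]
      exact hv0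
  refine ⟨X →₀ ℝ, inferInstance, inferInstance, τ, fun x => Finsupp.single x 1,
    hadd, hsmul, ht2, hcont, ?_⟩
  intro E _ _ _ _ _ _ f hf
  refine ⟨⟨Finsupp.linearCombination ℝ f, hext E f hf⟩, fun x => ?_, fun G hG => ?_⟩
  · change Finsupp.linearCombination ℝ f (Finsupp.single x 1) = f x
    simp
  · apply ContinuousLinearMap.coe_injective
    refine Finsupp.lhom_ext' fun x => LinearMap.ext_ring ?_
    change G (Finsupp.single x 1) = Finsupp.linearCombination ℝ f (Finsupp.single x 1)
    rw [hG x]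
    simp

/-- **Main result.** Let `X` be a metrizable space and `Y ⊆ X` closed. Then the free topological
vector space on `Y` is topologically isomorphic to a vector subspace of the free topological vector
space on `X` (by the canonical map extending the inclusion `Y → X`). -/
theorem result {X : Type u} [TopologicalSpace X] [MetrizableSpace X] {Y : Set X}
    (hY : IsClosed Y)
    {VX : Type u} [AddCommGroup VX] [Module ℝ VX] [TopologicalSpace VX] {iX : X → VX}
    (hVX : IsFreeTVS X VX iX)
    {VY : Type u} [AddCommGroup VY] [Module ℝ VY] [TopologicalSpace VY] {iY : Y → VY}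
    (hVY : IsFreeTVS Y VY iY) :
    ∃ T : VY →ₗ[ℝ] VX, IsEmbedding T ∧ ∀ y : Y, T (iY y) = iX y := by
  have := hVX.isTopologicalAddGroup
  have := hVX.continuousSMul
  have := hVX.t2Space
  have := hVY.isTopologicalAddGroup
  have := hVY.continuousSMul
  have := hVY.t2Space
  obtain ⟨T, hT, -⟩ := hVY.universal VX (fun y => iX y) (hVX.continuous.comp continuous_subtype_val)
  refine ⟨T, ?_, hT⟩
  rcases Y.eq_empty_or_nonempty with hYe | hYne
  · -- the trivial case
    have hsub : Subsingleton VY := by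
      obtain ⟨F, _, hF⟩ := hVY.universal VY iY hVY.continuous
      have h1 : ContinuousLinearMap.id ℝ VY = F := hF _ fun y => rfl
      have h2 : (0 : VY →L[ℝ] VY) = F := hF _ fun y => by
        exact absurd (hYe.subset y.2) (notMem_empty _)
      refine ⟨fun a b => ?_⟩
      have h3 : ∀ c : VY, c = 0 := fun c => by
        have : ContinuousLinearMap.id ℝ VY c = (0 : VY →L[ℝ] VY) c := by rw [h1, h2]
        simpa using this
      rw [h3 a, h3 b]
    exact ⟨⟨Subsingleton.elim _ _⟩, fun a b _ => Subsingleton.elim a b⟩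
  · let _ : MetricSpace X := metrizableSpaceMetric X
    obtain ⟨Φ, hΦ, hΦY⟩ := exists_extension hY hYne iY hVY.continuous
    obtain ⟨F, hF, -⟩ := hVX.universal (SeparationQuotient (HMS VY))
      (fun x => SeparationQuotient.mk (Φ x)) (SeparationQuotient.continuous_mk.comp hΦ)
    have hcc : Continuous (constL : VY →ₗ[ℝ] HMS VY) := isInducing_constL.continuous
    set C : VY →L[ℝ] SeparationQuotient (HMS VY) :=
      (SeparationQuotient.mkCLM ℝ (HMS VY)).comp ⟨constL, hcc⟩ with hC
    have hCi : IsInducing C := SeparationQuotient.isInducing_mk.comp isInducing_constL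
    obtain ⟨G, _, hG⟩ := hVY.universal (SeparationQuotient (HMS VY)) (fun y => C (iY y))
      (C.continuous.comp hVY.continuous)
    have h1 : F.comp T = G := hG _ fun y => by
      simp only [ContinuousLinearMap.comp_apply, hT, hF, hΦY]
      rfl
    have h2 : C = G := hG _ fun y => rfl
    have h3 : IsInducing (F ∘ T) := by
      have h4 : (F ∘ T) = C := by
        rw [h2, ← h1]
        rfl
      rw [h4]
      exact hCi
    have h5 : IsInducing T := IsInducing.of_comp T.continuous F.continuous h3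
    exact h5.isEmbedding

end Pool.Agent.Results.MP_aab88c_gt.ClosedSubspace
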